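import Mathlib

/-!
# Project NU: deviations from equidistribution as linear functionals
-/

set_option autoImplicit false

open Set Filter Topology MeasureTheory

noncomputable section

namespace Pool.Agent.Y304.NU

section abs

variable {M : Type} [MetricSpace M] [CompactSpace M] [MeasurableSpace M] [BorelSpace M]
  {μ : Measure M} [IsFiniteMeasure μ] {w : M → ℝ} {U : ℕ → M → ℝ}

/-- the deviation from equidistribution -/
def DD (μ : Measure M) (w : M → ℝ) (U : ℕ → M → ℝ) (f : M → ℝ) (j : ℕ) : ℝ :=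
  (∫ x, f x * (w x * (U j x) ^ 2) ∂μ) - (∫ x, f x * w x ∂μ) / ∫ x, w x ∂μ

omit [MeasurableSpace M] [BorelSpace M] in
theorem bdd {f : M → ℝ} (hf : Continuous f) : ∃ C : ℝ, 0 ≤ C ∧ ∀ x, |f x| ≤ C := by
  obtain ⟨C, hC⟩ := isCompact_univ.exists_bound_of_continuousOn (f := f) hf.continuousOn
  refine ⟨max C 0, le_max_right _ _, fun x => le_trans ?_ (le_max_left _ _)⟩
  simpa using hC x (mem_univ x)

theorem int1 {f : M → ℝ} (hf : Continuous f) : Integrable f μ := by
  obtain ⟨C, -, hC⟩ := bdd hf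
  exact Integrable.of_bound hf.aestronglyMeasurable C (ae_of_all _ fun x => by simpa using hC x)

theorem int2 (hw : Continuous w) (hU : ∀ j, MemLp (U j) 2 μ) (j : ℕ) {f : M → ℝ}
    (hf : Continuous f) : Integrable (fun x => f x * (w x * (U j x) ^ 2)) μ := by
  have h1 : Integrable (fun x => (U j x) ^ 2) μ := (hU j).integrable_sq
  obtain ⟨C, -, hC⟩ := bdd (hf.mul hw)
  have h2 := h1.bdd_mul (f := fun x => f x * w x) (c := C) (hf.mul hw).aestronglyMeasurable
    (ae_of_all _ fun x => by simpa using hC x)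
  refine h2.congr (ae_of_all _ fun x => ?_)
  simp only
  ring

theorem DD_add (hw : Continuous w) (hU : ∀ j, MemLp (U j) 2 μ) {f g : M → ℝ}
    (hf : Continuous f) (hg : Continuous g) (c : ℝ) (j : ℕ) :
    DD μ w U (fun x => f x + c * g x) j = DD μ w U f j + c * DD μ w U g j := by
  have e1 : ∫ x, (f x + c * g x) * (w x * (U j x) ^ 2) ∂μ =
      (∫ x, f x * (w x * (U j x) ^ 2) ∂μ) + c * ∫ x, g x * (w x * (U j x) ^ 2) ∂μ := by
    rw [← integral_const_mul, ← integral_add (int2 hw hU j hf) ((int2 hw hU j hg).const_mul c)]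
    exact integral_congr_ae (ae_of_all _ fun x => by simp only; ring)
  have e2 : ∫ x, (f x + c * g x) * w x ∂μ =
      (∫ x, f x * w x ∂μ) + c * ∫ x, g x * w x ∂μ := by
    have i1 : Integrable (fun x => f x * w x) μ := int1 (hf.mul hw)
    have i2 : Integrable (fun x => g x * w x) μ := int1 (hg.mul hw)
    rw [← integral_const_mul, ← integral_add i1 (i2.const_mul c)]
    exact integral_congr_ae (ae_of_all _ fun x => by simp only; ring)
  unfold DD
  rw [e1, e2]
  ring

theorem W0 (hw : Continuous w) (hp : ∀ x, 0 < w x)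
    (h1 : ∀ j, ∫ x, w x * (U j x) ^ 2 ∂μ = 1) : 0 < ∫ x, w x ∂μ := by
  rw [integral_pos_iff_support_of_nonneg (fun x => (hp x).le) (int1 hw)]
  have hs : Function.support w = univ := by
    ext x
    simp [(hp x).ne']
  rw [hs]
  by_contra h
  have h0 : μ = 0 := by
    rw [← Measure.measure_univ_eq_zero]
    simpa using h
  have := h1 0
  rw [h0] at this
  simp at this

theorem DD_const (hw : Continuous w) (hp : ∀ x, 0 < w x)
    (h1 : ∀ j, ∫ x, w x * (U j x) ^ 2 ∂μ = 1) (c : ℝ) (j : ℕ) :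
    DD μ w U (fun _ => c) j = 0 := by
  have hW := W0 hw hp h1
  unfold DD
  rw [integral_const_mul, integral_const_mul, h1 j]
  field_simp
  ring

theorem DD_bd (hw : Continuous w) (hp : ∀ x, 0 < w x) (hU : ∀ j, MemLp (U j) 2 μ)
    (h1 : ∀ j, ∫ x, w x * (U j x) ^ 2 ∂μ = 1) {f : M → ℝ} (hf : Continuous f) {c : ℝ}
    (hc : ∀ x, |f x| ≤ c) (j : ℕ) : |DD μ w U f j| ≤ 2 * c := by
  have hW := W0 hw hp h1
  have b1 : |∫ x, f x * (w x * (U j x) ^ 2) ∂μ| ≤ c := by
    calc |∫ x, f x * (w x * (U j x) ^ 2) ∂μ|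
        ≤ ∫ x, |f x * (w x * (U j x) ^ 2)| ∂μ := abs_integral_le_integral_abs
      _ ≤ ∫ x, c * (w x * (U j x) ^ 2) ∂μ := by
          refine integral_mono (int2 hw hU j hf).abs (int2 hw hU j continuous_const) fun x => ?_
          simp only
          have h0 : 0 ≤ w x * (U j x) ^ 2 := mul_nonneg (hp x).le (sq_nonneg _)
          rw [abs_mul, abs_of_nonneg h0]
          exact mul_le_mul_of_nonneg_right (hc x) h0
      _ = c := by rw [integral_const_mul, h1 j, mul_one]
  have b2 : |(∫ x, f x * w x ∂μ) / ∫ x, w x ∂μ| ≤ c := by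
    rw [abs_div, abs_of_pos hW, div_le_iff₀ hW]
    calc |∫ x, f x * w x ∂μ|
        ≤ ∫ x, |f x * w x| ∂μ := abs_integral_le_integral_abs
      _ ≤ ∫ x, c * w x ∂μ := by
          refine integral_mono (int1 (hf.mul hw)).abs (int1 (continuous_const.mul hw)) fun x => ?_
          simp only
          rw [abs_mul, abs_of_pos (hp x)]
          exact mul_le_mul_of_nonneg_right (hc x) (hp x).le
      _ = c * ∫ x, w x ∂μ := integral_const_mul _ _
  unfold DD
  rw [abs_le] at *
  constructor <;> linarith [b1.1, b1.2, b2.1, b2.2]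

theorem DD_sig {σ : M → M} (hs : MeasurePreserving σ μ μ) (hsc : Continuous σ)
    (hw : Continuous w) (hws : ∀ x, w (σ x) = w x) (hU : ∀ j, MemLp (U j) 2 μ)
    (hUs : ∀ j, ∀ᵐ x ∂μ, U j (σ x) = - U j x) {f : M → ℝ} (hf : Continuous f) (j : ℕ) :
    DD μ w U (fun x => f (σ x)) j = DD μ w U f j := by
  have e1 : ∫ x, f (σ x) * (w x * (U j x) ^ 2) ∂μ = ∫ x, f x * (w x * (U j x) ^ 2) ∂μ := by
    have h2 : ∫ y, f y * (w y * (U j y) ^ 2) ∂(Measure.map σ μ) =
        ∫ x, f (σ x) * (w (σ x) * (U j (σ x)) ^ 2) ∂μ :=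
      integral_map hsc.measurable.aemeasurable
        (by rw [hs.map_eq]; exact (int2 hw hU j hf).aestronglyMeasurable)
    rw [hs.map_eq] at h2
    rw [h2]
    refine integral_congr_ae ?_
    filter_upwards [hUs j] with x hx
    rw [hx, hws x]
    ring
  have e2 : ∫ x, f (σ x) * w x ∂μ = ∫ x, f x * w x ∂μ := by
    have h2 : ∫ y, f y * w y ∂(Measure.map σ μ) = ∫ x, f (σ x) * w (σ x) ∂μ :=
      integral_map hsc.measurable.aemeasurable
        (by rw [hs.map_eq]; exact (int1 (hf.mul hw)).aestronglyMeasurable)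
    rw [hs.map_eq] at h2
    rw [h2]
    exact integral_congr_ae (ae_of_all _ fun x => by simp only [hws x])
  unfold DD
  rw [e1, e2]

omit [CompactSpace M] [BorelSpace M] [IsFiniteMeasure μ] in
theorem DD_iff (f : M → ℝ) :
    Tendsto (fun j => ∫ x, f x * (w x * (U j x) ^ 2) ∂μ) atTop
      (𝓝 ((∫ x, f x * w x ∂μ) / ∫ x, w x ∂μ)) ↔ Tendsto (DD μ w U f) atTop (𝓝 0) := by
  rw [← tendsto_sub_nhds_zero_iff]
  rfl

/-- approximation -/
theorem DD_app (hw : Continuous w) (hp : ∀ x, 0 < w x) (hU : ∀ j, MemLp (U j) 2 μ)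
    (h1 : ∀ j, ∫ x, w x * (U j x) ^ 2 ∂μ = 1) {f : M → ℝ} (hf : Continuous f)
    (P : (M → ℝ) → Prop)
    (hP : ∀ ε : ℝ, 0 < ε → ∃ F : M → ℝ, Continuous F ∧ P F ∧ ∀ x, |F x - f x| < ε)
    (hn : ¬ Tendsto (DD μ w U f) atTop (𝓝 0)) :
    ∃ F : M → ℝ, Continuous F ∧ P F ∧ ¬ Tendsto (DD μ w U F) atTop (𝓝 0) := by
  by_contra hcon
  push Not at hcon
  apply hn
  rw [Metric.tendsto_atTop]
  intro ε hε
  obtain ⟨F, hF, hPF, hFf⟩ := hP (ε / 8) (by positivity)
  have ht := hcon F hF hPF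
  rw [Metric.tendsto_atTop] at ht
  obtain ⟨N, hN⟩ := ht (ε / 2) (by positivity)
  refine ⟨N, fun n hn => ?_⟩
  have h2 := hN n hn
  rw [Real.dist_eq, sub_zero] at h2 ⊢
  have h3 := DD_add (μ := μ) hw hU hF hf (-1) n
  have hc : Continuous fun x => F x + (-1) * f x := by fun_prop
  have h4 := DD_bd (μ := μ) hw hp hU h1 hc (c := ε / 8)
    (fun x => by
      have := hFf x
      rw [show F x + (-1) * f x = F x - f x by ring]
      exact this.le) n
  rw [h3] at h4
  rw [abs_le] at h4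
  rw [abs_lt] at h2 ⊢
  constructor <;> linarith [h4.1, h4.2, h2.1, h2.2]

end abs

end Pool.Agent.Y304.NU
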