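import Pool.Agent.Y262.NU.Stm2
import Pool.Agent.Y304.NU.Abs

/-!
# Project NU: choice of the test function
-/

set_option autoImplicit false

open Set Filter Topology MeasureTheory
open scoped ContDiff ComplexConjugate Real

noncomputable section

namespace Pool.Agent.Y304.NU

open Pool.Agent.Y262.QE Pool.Agent.Y262.EG Pool.Agent.Y262.EX Pool.Agent.Y262.NU

/-- choice of the test function -/
theorem sel (hSmd : StSmd) (hPsi : StPsi) : StSel := by
  intro M P _ _ _ _ _ _ Ω φ pr q L δ δ' κ C g σ μ _ w hUT hCl hR hms hσc hσσ hw hp hws U hU hUs h1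
    hnot
  push Not at hnot
  obtain ⟨f1, hf1, hn1⟩ := hnot
  rw [DD_iff] at hn1
  -- (1) a smooth function
  obtain ⟨F, hF, hFs, hnF⟩ := DD_app hw hp hU h1 hf1
    (fun F => ContDiffOn ℝ ∞ (fun z => F (pr z)) Ω)
    (fun ε hε => hSmd M P Ω φ pr q hUT f1 hf1 ε hε) hn1
  -- (2) symmetrization
  obtain ⟨C0, hC0, hFb⟩ := bdd hF
  set G : M → ℝ := fun x => (1 / 2 * F x + 1 / 2 * F (σ x)) + C0 with hGdef
  have hGc : Continuous G := by
    have := hF.comp hσc
    fun_prop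
  have hFσ : Continuous fun x => F (σ x) := hF.comp hσc
  have hG0 : ∀ x, 0 ≤ G x := by
    intro x
    have ha := (abs_le.1 (hFb x)).1
    have hb := (abs_le.1 (hFb (σ x))).1
    simp only [hGdef]
    linarith
  have hGσ : ∀ x, G (σ x) = G x := by
    intro x
    simp only [hGdef, hσσ x]
    ring
  have hGs : ContDiffOn ℝ ∞ (fun z => G (pr z)) Ω := by
    have hconj : ContDiffOn ℝ ∞ (fun z : ℂ => conj z) Ω :=
      (Complex.conjCLE.contDiff (n := ∞)).contDiffOn
    have h2 : ContDiffOn ℝ ∞ (fun z => F (pr (conj z))) Ω :=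
      hFs.comp hconj (fun z hz => hR.maps z hz)
    have h3 : ContDiffOn ℝ ∞ (fun z => (1 / 2 * F (pr z) + 1 / 2 * F (pr (conj z))) + C0) Ω :=
      ((contDiffOn_const.mul hFs).add (contDiffOn_const.mul h2)).add contDiffOn_const
    refine h3.congr fun z hz => ?_
    simp only [hGdef, hR.rfl' z hz]
  have hDG : ∀ j, DD μ w U G j = DD μ w U F j := by
    intro j
    have e1 : G = fun x => (fun x => (fun x => C0 + 1 / 2 * F x) x + 1 / 2 * F (σ x)) x := by
      funext x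
      simp only [hGdef]
      ring
    rw [e1]
    have hc1 : Continuous fun x => C0 + 1 / 2 * F x := by fun_prop
    have a1 := DD_add (μ := μ) hw hU hc1 hFσ (1 / 2) j
    have a2 := DD_add (μ := μ) hw hU (continuous_const (y := C0)) hF (1 / 2) j
    have a3 := DD_const (μ := μ) hw hp h1 C0 j
    have a4 := DD_sig (μ := μ) hms hσc hw hws hU hUs hF j
    simp only at a1 a2 a3 a4 ⊢
    rw [a1, a2, a3, a4]
    ring
  have hnG : ¬ Tendsto (DD μ w U G) atTop (𝓝 0) := by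
    have : DD μ w U G = DD μ w U F := funext hDG
    rw [this]
    exact hnF
  -- (3) the function of the cylinder
  obtain ⟨ψ, hψc, hψ0, hψσ, hψs, hψN⟩ := hPsi M P Ω φ pr q L δ δ' κ C g σ hUT hCl hR
  have key : ∀ F0 : M → ℝ, Continuous F0 → (∀ x, 0 ≤ F0 x) → (∀ x, F0 (σ x) = F0 x) →
      ContDiffOn ℝ ∞ (fun z => F0 (pr z)) Ω →
      (∀ N : ℝ, 1 ≤ N → ¬ Tendsto (DD μ w U (fun x => F0 x + N * ψ x)) atTop (𝓝 0)) →
      ∃ (f ψ : M → ℝ) (ε : ℝ), 0 < ε ∧ Continuous f ∧ (∀ x, 0 ≤ f x) ∧ (∀ x, f (σ x) = f x) ∧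
      ContDiffOn ℝ ∞ (fun z => f (pr z)) Ω ∧ Continuous ψ ∧ (∀ x, 0 ≤ ψ x) ∧
      (∀ x, ψ (σ x) = ψ x) ∧ ContDiffOn ℝ ∞ (fun z => ψ (pr z)) Ω ∧
      (∀ t τ : ℝ, 0 ≤ t → t < ε → 0 < τ → τ < ε → ∀ z ∈ Ω,
        curv (fun z => φ z + t * f (pr z) + τ * ψ (pr z)) z < 0) ∧
      ¬ Tendsto (fun j => ∫ x, f x * (w x * (U j x) ^ 2) ∂μ) atTop
        (𝓝 ((∫ x, f x * w x ∂μ) / ∫ x, w x ∂μ)) := by
    intro F0 hF0 hF00 hF0σ hF0s hF0n
    obtain ⟨N, ε, hN, hε, hcv⟩ := hψN F0 hF0 hF0s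
    refine ⟨fun x => F0 x + N * ψ x, ψ, ε, hε, by fun_prop, ?_, ?_, ?_, hψc, hψ0, hψσ, hψs, ?_, ?_⟩
    · intro x
      have := hF00 x
      have := hψ0 x
      have : 0 ≤ N * ψ x := mul_nonneg (by linarith) (hψ0 x)
      simp only
      linarith [hF00 x]
    · intro x
      simp only [hF0σ x, hψσ x]
    · exact hF0s.add (contDiffOn_const.mul hψs)
    · intro t τ ht ht' hτ hτ' z hz
      exact hcv t τ ht ht' hτ hτ' z hz
    · rw [DD_iff]
      exact hF0n N hN
  by_cases hcase : Tendsto (DD μ w U ψ) atTop (𝓝 0)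
  · -- case 2
    refine key G hGc hG0 hGσ hGs fun N hN ht => hnG ?_
    have e : DD μ w U G = fun j => DD μ w U (fun x => G x + N * ψ x) j - N * DD μ w U ψ j := by
      funext j
      rw [DD_add hw hU hGc hψc N j]
      ring
    rw [e]
    have := ht.sub (hcase.const_mul N)
    simpa using this
  · -- case 1
    refine key (fun _ => 0) continuous_const (fun _ => le_rfl) (fun _ => rfl) contDiffOn_const
      fun N hN ht => hcase ?_
    have hN0 : N ≠ 0 := by positivity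
    have e : DD μ w U ψ = fun j => N⁻¹ * DD μ w U (fun x => (fun _ => (0 : ℝ)) x + N * ψ x) j := by
      funext j
      rw [DD_add hw hU continuous_const hψc N j, DD_const hw hp h1 0 j]
      field_simp
      ring
    rw [e]
    have := ht.const_mul N⁻¹
    simpa using this

end Pool.Agent.Y304.NU
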